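import Mathlib
import Pool.Agent.V11112.HS4

set_option autoImplicit false

/-!
# MP_ec84ce_an, Q1: hidden sets and relatively polyhedric convex sets

For a closed convex subset `C` of a convex set `D` in a complete linear metric space `X`, the set
`C` hides no infinite subset of `D \ C` if and only if `C` is polyhedric in `D ∩ aff(C)`.
-/

namespace Pool.Agent.Results.MP_ec84ce_an.HiddenSetsRelative

universe u

/-- `C` hides `A`: the convex hull of every pair of distinct points of `A` meets `C`. -/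
def Hides {X : Type u} [AddCommGroup X] [Module ℝ X] (C A : Set X) : Prop :=
  ∀ a ∈ A, ∀ b ∈ A, a ≠ b → (convexHull ℝ {a, b} ∩ C).Nonempty

/-- `C` is polyhedric in `D'`: it is the intersection of finitely many (at least one) subsets
`H i` of `D'` such that both `H i` and `D' \ H i` are convex. -/
def PolyhedricIn {X : Type u} [AddCommGroup X] [Module ℝ X] (C D' : Set X) : Prop :=
  ∃ n : ℕ, 1 ≤ n ∧ ∃ H : Fin n → Set X, (∀ i, H i ⊆ D') ∧ C = ⋂ i, H i ∧
    ∀ i, Convex ℝ (H i) ∧ Convex ℝ (D' \ H i)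

open Pool.Agent.V11112.HS in
theorem result (X : Type u) [AddCommGroup X] [Module ℝ X] [TopologicalSpace X]
    [IsTopologicalAddGroup X] [ContinuousSMul ℝ X] [TopologicalSpace.IsCompletelyMetrizableSpace X]
    (C D : Set X) (hCclosed : IsClosed C) (hC : Convex ℝ C) (hD : Convex ℝ D) (hCD : C ⊆ D) :
    (¬ ∃ A : Set X, A.Infinite ∧ A ⊆ D \ C ∧ Hides C A) ↔
      PolyhedricIn C (D ∩ (affineSpan ℝ C : Set X)) := by
  have hhid : ∀ A : Set X, Hides C A ↔ ∀ a ∈ A, ∀ b ∈ A, a ≠ b → Hid C a b := by
    intro A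
    unfold Hides Hid
    simp only [convexHull_pair]
  constructor
  · intro h
    have hD' : Convex ℝ (D ∩ (affineSpan ℝ C : Set X)) := hD.inter (AffineSubspace.convex _)
    have hCD' : C ⊆ D ∩ (affineSpan ℝ C : Set X) := Set.subset_inter hCD (subset_affineSpan ℝ C)
    refine polyhedric_of_cov hC hD' hCD' ?_
    refine main hC hCclosed hD' hCD' Set.inter_subset_right ?_
    intro A hA hAD hAH
    exact h ⟨A, hA, fun z hz => ⟨(hAD hz).1.1, (hAD hz).2⟩, (hhid A).2 hAH⟩
  · rintro h ⟨A, hA, hAD, hAH⟩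
    exact no_infinite_of_polyhedric h A hA hAD ((hhid A).1 hAH)

end Pool.Agent.Results.MP_ec84ce_an.HiddenSetsRelative
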